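import Pool.Agent.Helper292.ForceCH

set_option autoImplicit false

namespace H453Z.Kw

open Pool.Agent.Helper292.ForceCH

/-- `C` is a closed unbounded subset of `ω₁` (the sentence named by `IsClubName`) -/
def IsClub (C : Om → Prop) : Prop :=
  (∀ a : Om, ∃ b : Om, a < b ∧ C b) ∧
    ∀ a : Om, (∃ b, b < a) → (∀ b : Om, b < a → ∃ c : Om, (b < c ∧ c < a) ∧ C c) → C a

/-- diamond: the sentence which `DiamondHolds P` says is forced, evaluated in the universe -/
def Diamond : Prop :=
  ∃ A : Om → Om → Prop, ∀ S : Om → Prop, ∀ C : Om → Prop,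
    IsClub C → ∃ a : Om, C a ∧ ∀ b : Om, b < a → (S b ↔ A a b)

end H453Z.Kw
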