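import Pool.Agent.H453Z.Kw.KOmega

set_option autoImplicit false

open Filter Topology Set
open scoped Pointwise

namespace H453Z.Kw

theorem Tight.exists_countable {X : Type} [TopologicalSpace X] (h : Tight X) (A : Set X) (x : X)
    (hx : x ∈ closure A) : ∃ B ⊆ A, B.Countable ∧ x ∈ closure B := by
  have h1 : IsClosed {y | ∃ B ⊆ A, B.Countable ∧ y ∈ closure B} := by
    refine h _ fun D hD hDc y hy => ?_
    choose! B hB1 hB2 hB3 using fun d (hd : d ∈ D) => hD hd
    refine ⟨⋃ d ∈ D, B d, iUnion₂_subset hB1, hDc.biUnion hB2, ?_⟩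
    refine closure_minimal (fun d hd => ?_) isClosed_closure hy
    exact closure_mono (subset_biUnion_of_mem hd) (hB3 d hd)
  have h2 : A ⊆ {y | ∃ B ⊆ A, B.Countable ∧ y ∈ closure B} := fun a ha =>
    ⟨{a}, singleton_subset_iff.2 ha, countable_singleton a, subset_closure rfl⟩
  exact closure_minimal h2 h1 hx

theorem exists_param {G Z : Type} [Group G] [TopologicalSpace G] [IsTopologicalGroup G]
    [TopologicalSpace Z] [CompactSpace Z] [T2Space Z] (hZ : Tight Z) (p : Z → G)
    (hp : Continuous p) (n : ℕ) :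
    ∃ (X : Type) (_ : TopologicalSpace X) (_ : CompactSpace X) (f : X → G), Tight X ∧
      Continuous f ∧ range f = range p ^ n ∧
      ∀ (H : Type) [Group H] [TopologicalSpace H] [IsTopologicalGroup H] (φ : G →* H),
        Continuous (φ ∘ p) → Continuous (φ ∘ f) := by
  induction n with
  | zero =>
    refine ⟨Unit, inferInstance, inferInstance, fun _ => 1, fun C _ => isClosed_discrete C,
      continuous_const, ?_, fun H _ _ _ φ _ => continuous_of_discreteTopology⟩
    simp only [range_const, pow_zero]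
    rfl
  | succ n ih =>
    obtain ⟨X, _, _, f, h1, h2, h3, h4⟩ := ih
    refine ⟨X × Z, inferInstance, inferInstance, fun q => f q.1 * p q.2, h1.prod hZ, by fun_prop,
      ?_, fun H _ _ _ φ hφ => ?_⟩
    · rw [pow_succ, ← h3]
      ext g
      constructor
      · rintro ⟨⟨x, z⟩, rfl⟩
        exact mul_mem_mul ⟨x, rfl⟩ ⟨z, rfl⟩
      · rintro ⟨_, ⟨x, rfl⟩, _, ⟨z, rfl⟩, rfl⟩
        exact ⟨(x, z), rfl⟩
    · have : (φ ∘ fun q : X × Z => f q.1 * p q.2) = fun q => (φ ∘ f) q.1 * (φ ∘ p) q.2 := by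
        funext q
        simp
      rw [this]
      exact ((h4 H φ hφ).comp continuous_fst).mul (hφ.comp continuous_snd)

theorem exists_group_aux {G Z : Type} [Group G] [τ : TopologicalSpace G] [IsTopologicalGroup G]
    [T2Space G] [TopologicalSpace Z] [CompactSpace Z] [T2Space Z] (hZ : Tight Z) (p : Z → G)
    (hp : Continuous p) (hinj : Function.Injective p) (ν : Z → Z) (hν : ∀ z, p (ν z) = (p z)⁻¹)
    (h3 : ∀ z, p z ^ 3 = 1) (z0 : Z) (h0 : p z0 = 1) (hcov : ∀ g, ∃ n, g ∈ range p ^ n)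
    (hN : ∀ u : ℕ → Z, (∀ n, u n ≠ z0) → ¬ Tendsto u atTop (𝓝 z0))
    (hcl : z0 ∈ closure ({z0}ᶜ : Set Z))
    (hS : ∀ (H : Type) [Group H] [TopologicalSpace H] [IsTopologicalGroup H] [T2Space H]
      (ψ : Z → H), SeqContinuous ψ → (∀ z, ψ (ν z) = (ψ z)⁻¹) → (∀ z, ψ z ^ 3 = 1) →
      Continuous ψ) :
    ∃ t : TopologicalSpace G, @IsTopologicalGroup G t _ ∧ @T2Space G t ∧
      (∀ (H : Type) [Group H] [TopologicalSpace H] [IsTopologicalGroup H] [T2Space H]
        (φ : G →* H), @SeqContinuous G H t _ φ → @Continuous G H t _ φ) ∧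
      @Tight G t ∧ (∀ A : Set G, (∀ K : Set G, @IsCompact G t K → IsClosed[t] (A ∩ K)) →
        IsClosed[t] A) ∧ ¬ @SequentialSpace G t := by
  choose X tX cX f hX hf hr hφ using exists_param hZ p hp
  have hc : ∀ n, IsCompact (range p ^ n) := fun n => hr n ▸ isCompact_range (hf n)
  have hL : ∀ n, IsClosed (range p ^ n) := fun n => (hc n).isClosed
  have h1 : (1 : G) ∈ range p := ⟨z0, h0⟩
  have hmono : Monotone fun n => range p ^ n := fun a b hab => Set.pow_subset_pow_right h1 hab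
  have hinv1 : (range p)⁻¹ = range p := by
    ext g
    constructor
    · rintro ⟨z, hz⟩
      exact ⟨ν z, by rw [hν, hz, inv_inv]⟩
    · rintro ⟨z, rfl⟩
      exact ⟨ν z, hν z⟩
  have hinv : ∀ n, ∀ x ∈ range p ^ n, x⁻¹ ∈ range p ^ n := by
    intro n x hx
    rw [← hinv1, inv_pow]
    simpa using hx
  have hcl2 : ∀ (n : ℕ) (C : Set G), IsClosed (f n ⁻¹' C) → IsClosed (range p ^ n ∩ C) := by
    intro n C hC
    have := (hC.isCompact.image (hf n)).isClosed
    rwa [image_preimage_eq_range_inter, hr] at this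
  have hft : ∀ n, @Continuous (X n) G _ (kTop _ hL) (f n) := fun n =>
    continuous_to_kTop (hf n) n fun x => hr n ▸ ⟨x, rfl⟩
  have hpt : @Continuous Z G _ (kTop _ hL) p :=
    continuous_to_kTop hp 1 fun x => by simp
  have hemb : IsClosedEmbedding p := hp.isClosedEmbedding hinj
  refine ⟨kTop _ hL, isTopologicalGroup_kTop hc hL hmono hcov
    (fun n => ⟨n + n, by rw [pow_add]⟩) hinv, t2Space_antitone kTop_le inferInstance, ?_, ?_, ?_,
    ?_⟩
  · intro H _ _ _ _ φ hseq
    have h4 : Continuous (φ ∘ p) := by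
      refine hS H _ (fun u z hu => ?_) (fun z => by simp [hν]) (fun z => by
        simp only [Function.comp]
        rw [← map_pow, h3, map_one])
      exact hseq ((@Continuous.tendsto Z G _ (kTop _ hL) p hpt z).comp hu)
    refine (@continuous_iff_isClosed G H (kTop _ hL) _ φ).2 fun D hD => ?_
    exact isClosed_kTop.2 fun n => hcl2 n _ (hD.preimage (hφ n H φ h4))
  · intro C hC
    refine isClosed_kTop.2 fun n => hcl2 n _ (hX n _ fun B hB hBc x hx => ?_)
    refine hC (f n '' B) (by rintro _ ⟨b, hb, rfl⟩; exact hB hb) (hBc.image _) ?_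
    exact @image_closure_subset_closure_image (X n) G _ (kTop _ hL) _ _ (hft n) _ ⟨x, hx, rfl⟩
  · intro A hA
    refine isClosed_kTop.2 fun n => ?_
    have := isClosed_kTop.1 (hA _ (isCompact_kTop (hc n) n subset_rfl)) n
    rwa [inter_comm A, ← inter_assoc, inter_self] at this
  · intro hseq
    have h5 : @IsSeqClosed G (kTop _ hL) (p '' {z0}ᶜ) := by
      intro y g hy hg
      have hg' : Tendsto y atTop (𝓝 g) := hg.mono_right (nhds_mono kTop_le)
      choose u hu1 hu2 using hy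
      have h6 : g ∈ range p :=
        hemb.isClosed_range.mem_of_tendsto hg' (Eventually.of_forall fun n => ⟨u n, hu2 n⟩)
      obtain ⟨z, rfl⟩ := h6
      refine ⟨z, fun hz => hN u hu1 ?_, rfl⟩
      rw [← show z = z0 from hz, hemb.isInducing.tendsto_nhds_iff]
      convert hg' using 1
      funext n
      exact hu2 n
    have h7 := @IsClosed.preimage Z G _ (kTop _ hL) p hpt _
      (@IsSeqClosed.isClosed G (kTop _ hL) hseq _ h5)
    rw [preimage_image_eq _ hinj] at h7
    exact h7.closure_subset hcl rfl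

theorem exists_group {E Z : Type} [Group E] [TopologicalSpace E] [IsTopologicalGroup E]
    [T2Space E] [TopologicalSpace Z] [CompactSpace Z] [T2Space Z] (hZ : Tight Z) (p : Z → E)
    (hp : Continuous p) (hinj : Function.Injective p) (ν : Z → Z) (hν : ∀ z, p (ν z) = (p z)⁻¹)
    (h3 : ∀ z, p z ^ 3 = 1) (z0 : Z) (h0 : p z0 = 1)
    (hN : ∀ u : ℕ → Z, (∀ n, u n ≠ z0) → ¬ Tendsto u atTop (𝓝 z0))
    (hcl : z0 ∈ closure ({z0}ᶜ : Set Z))
    (hS : ∀ (H : Type) [Group H] [TopologicalSpace H] [IsTopologicalGroup H] [T2Space H]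
      (ψ : Z → H), SeqContinuous ψ → (∀ z, ψ (ν z) = (ψ z)⁻¹) → (∀ z, ψ z ^ 3 = 1) →
      Continuous ψ) :
    ∃ (G : Type) (_ : Group G) (_ : TopologicalSpace G), IsTopologicalGroup G ∧ T2Space G ∧
      (∀ (H : Type) [Group H] [TopologicalSpace H] [IsTopologicalGroup H] [T2Space H]
        (φ : G →* H), SeqContinuous φ → Continuous φ) ∧
      (∀ (A : Set G) (x : G), x ∈ closure A → ∃ B ⊆ A, B.Countable ∧ x ∈ closure B) ∧
      (∀ A : Set G, (∀ K : Set G, IsCompact K → IsClosed (A ∩ K)) → IsClosed A) ∧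
      ¬ SequentialSpace G := by
  let G := Subgroup.closure (range p)
  let q : Z → G := fun z => ⟨p z, Subgroup.subset_closure ⟨z, rfl⟩⟩
  have hq0 : q z0 = 1 := Subtype.ext h0
  have hqν : ∀ z, q (ν z) = (q z)⁻¹ := fun z => Subtype.ext (hν z)
  have h1 : (1 : G) ∈ range q := ⟨z0, hq0⟩
  have hinv1 : (range q)⁻¹ = range q := by
    ext g
    constructor
    · rintro ⟨z, hz⟩
      exact ⟨ν z, by rw [hqν, hz, inv_inv]⟩
    · rintro ⟨z, rfl⟩
      exact ⟨ν z, hqν z⟩
  have hcov : ∀ g : G, ∃ n, g ∈ range q ^ n := by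
    rintro ⟨g, hg⟩
    induction hg using Subgroup.closure_induction with
    | mem x hx =>
      obtain ⟨z, rfl⟩ := hx
      exact ⟨1, by rw [pow_one]; exact ⟨z, rfl⟩⟩
    | one => exact ⟨0, rfl⟩
    | mul x y hx hy ihx ihy =>
      obtain ⟨a, ha⟩ := ihx
      obtain ⟨b, hb⟩ := ihy
      exact ⟨a + b, by rw [pow_add]; exact mul_mem_mul ha hb⟩
    | inv x hx ih =>
      obtain ⟨a, ha⟩ := ih
      refine ⟨a, ?_⟩
      rw [← hinv1, inv_pow]
      exact Set.inv_mem_inv.2 ha
  obtain ⟨t, a1, a2, a3, a4, a5, a6⟩ := exists_group_aux hZ q (hp.subtype_mk _)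
    (fun a b h => hinj (congrArg Subtype.val h)) ν hqν (fun z => Subtype.ext (h3 z)) z0 hq0 hcov hN
    hcl hS
  exact ⟨G, inferInstance, t, a1, a2, a3, @Tight.exists_countable G t a4, a5, a6⟩

end H453Z.Kw
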