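import Mathlib

set_option autoImplicit false

open Filter Topology Set
open scoped Pointwise

namespace H453Z.Kw

/-- the inductive limit topology along a sequence of closed sets -/
@[instance_reducible] def kTop {G : Type} [TopologicalSpace G] (L : ℕ → Set G) (hL : ∀ n, IsClosed (L n)) :
    TopologicalSpace G where
  IsOpen U := ∀ n, IsClosed (L n \ U)
  isOpen_univ := fun n => by simp
  isOpen_inter := fun U V hU hV n => by
    rw [sdiff_inter]
    exact (hU n).union (hV n)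
  isOpen_sUnion := fun s hs n => by
    have : L n \ ⋃₀ s = L n ∩ ⋂ U ∈ s, (L n \ U) := by
      ext x
      simp only [Set.mem_sdiff, mem_sUnion, not_exists, not_and, mem_inter_iff, mem_iInter]
      exact ⟨fun h => ⟨h.1, fun U hU => ⟨h.1, h.2 U hU⟩⟩, fun h => ⟨h.1, fun U hU => (h.2 U hU).2⟩⟩
    rw [this]
    exact (hL n).inter (isClosed_biInter fun U hU => hs U hU n)

section Basic

variable {G : Type} [τ : TopologicalSpace G] {L : ℕ → Set G} {hL : ∀ n, IsClosed (L n)}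

theorem isOpen_kTop {U : Set G} : IsOpen[kTop L hL] U ↔ ∀ n, IsClosed (L n \ U) := Iff.rfl

theorem isClosed_kTop {C : Set G} : IsClosed[kTop L hL] C ↔ ∀ n, IsClosed (L n ∩ C) := by
  rw [← @isOpen_compl_iff G C (kTop L hL), isOpen_kTop]
  simp only [sdiff_compl]

theorem kTop_le : kTop L hL ≤ τ := fun _ hU n => (hL n).sdiff hU

theorem continuous_to_kTop {X : Type} [TopologicalSpace X] {f : X → G} (hf : Continuous f) (n : ℕ)
    (hn : ∀ x, f x ∈ L n) : @Continuous X G _ (kTop L hL) f := by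
  refine @Continuous.mk X G _ (kTop L hL) f fun U hU => ?_
  have : f ⁻¹' U = (f ⁻¹' (L n \ U))ᶜ := by
    ext x
    simp [hn x]
  rw [this]
  exact ((hU n).preimage hf).isOpen_compl

theorem isCompact_kTop {K : Set G} (hK : IsCompact K) (n : ℕ) (hn : K ⊆ L n) :
    @IsCompact G (kTop L hL) K := by
  have : CompactSpace K := isCompact_iff_compactSpace.1 hK
  have h1 := @isCompact_range K G _ (kTop L hL) _ _
    (continuous_to_kTop (hL := hL) continuous_subtype_val n fun x : K => hn x.2)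
  rwa [Subtype.range_coe] at h1

end Basic

section Grp

variable {G : Type} [Group G] [τ : TopologicalSpace G] [IsTopologicalGroup G] {L : ℕ → Set G}

omit [Group G] [IsTopologicalGroup G] in
theorem isOpen_union_chain {hL : ∀ n, IsClosed (L n)} (hmono : Monotone L) (n0 : ℕ)
    (A O : ℕ → Set G) (hO : ∀ n, IsOpen (O n)) (h1 : ∀ n, A n ⊆ O n)
    (h2 : ∀ n, O n ∩ L (n0 + n + 1) ⊆ A (n + 1)) (h3 : Monotone A) :
    IsOpen[kTop L hL] (⋃ n, A n) := by
  intro k
  have : L k \ ⋃ n, A n = ⋂ n, (L k \ O (k + n)) := by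
    ext z
    simp only [Set.mem_sdiff, mem_iUnion, not_exists, mem_iInter]
    constructor
    · rintro ⟨hz, h⟩ n
      exact ⟨hz, fun hz' => h (k + n + 1) (h2 _ ⟨hz', hmono (by omega) hz⟩)⟩
    · intro h
      exact ⟨(h 0).1, fun n hn => (h n).2 (h1 _ (h3 (Nat.le_add_left n k) hn))⟩
  rw [this]
  exact isClosed_iInter fun n => (hL k).sdiff (hO _)

theorem isTopologicalGroup_kTop (hc : ∀ n, IsCompact (L n)) (hL : ∀ n, IsClosed (L n))
    (hmono : Monotone L) (hcov : ∀ g, ∃ n, g ∈ L n) (hmul : ∀ n, ∃ m, L n * L n ⊆ L m)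
    (hinv : ∀ n, ∀ x ∈ L n, x⁻¹ ∈ L n) : @IsTopologicalGroup G (kTop L hL) _ := by
  have hm : @Continuous (G × G) G (@instTopologicalSpaceProd G G (kTop L hL) (kTop L hL))
      (kTop L hL) (fun p => p.1 * p.2) := by
    refine @Continuous.mk (G × G) G (@instTopologicalSpaceProd G G (kTop L hL) (kTop L hL))
      (kTop L hL) _ fun W hW => ?_
    refine (@isOpen_prod_iff G G (kTop L hL) (kTop L hL) _).2 fun x y hxy => ?_
    obtain ⟨n0, hx, hy⟩ : ∃ n0, x ∈ L n0 ∧ y ∈ L n0 := by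
      obtain ⟨a, ha⟩ := hcov x
      obtain ⟨b, hb⟩ := hcov y
      exact ⟨max a b, hmono (le_max_left a b) ha, hmono (le_max_right a b) hb⟩
    have step : ∀ (n : ℕ) (AB : Set G × Set G), IsCompact AB.1 → IsCompact AB.2 →
        (∀ a ∈ AB.1, ∀ b ∈ AB.2, a * b ∈ W) → AB.1 ⊆ L n → AB.2 ⊆ L n →
        ∃ OP : Set G × Set G, IsOpen OP.1 ∧ IsOpen OP.2 ∧ AB.1 ⊆ OP.1 ∧ AB.2 ⊆ OP.2 ∧
          ∀ a ∈ closure OP.1 ∩ L (n + 1), ∀ b ∈ closure OP.2 ∩ L (n + 1), a * b ∈ W := by
      rintro n ⟨A, B⟩ hA hB hAB hAL hBL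
      obtain ⟨m, hm⟩ := hmul (n + 1)
      have h1 : IsOpen ((fun p : G × G => p.1 * p.2) ⁻¹' (L m \ W)ᶜ) :=
        (hW m).isOpen_compl.preimage continuous_mul
      obtain ⟨O, P, hO, hP, hAO, hBP, hOP⟩ := generalized_tube_lemma hA hB h1 (by
        rintro ⟨a, b⟩ ⟨ha, hb⟩ h
        exact h.2 (hAB a ha b hb))
      obtain ⟨O', hO', hAO', hOO⟩ := hA.exists_isOpen_closure_subset (hO.mem_nhdsSet.2 hAO)
      obtain ⟨P', hP', hBP', hPP⟩ := hB.exists_isOpen_closure_subset (hP.mem_nhdsSet.2 hBP)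
      refine ⟨(O', P'), hO', hP', hAO', hBP', fun a ha b hb => ?_⟩
      by_contra h
      exact hOP (mk_mem_prod (hOO ha.1) (hPP hb.1)) ⟨hm (mul_mem_mul ha.2 hb.2), h⟩
    choose! Φ s1 s2 s3 s4 s5 using step
    let AB : ℕ → Set G × Set G := fun n => Nat.rec ({x}, {y}) (fun n AB =>
      (closure (Φ (n0 + n) AB).1 ∩ L (n0 + n + 1), closure (Φ (n0 + n) AB).2 ∩ L (n0 + n + 1))) n
    have hs : ∀ n, AB (n + 1) = (closure (Φ (n0 + n) (AB n)).1 ∩ L (n0 + n + 1),
      closure (Φ (n0 + n) (AB n)).2 ∩ L (n0 + n + 1)) := fun n => rfl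
    have hinvt : ∀ n, IsCompact (AB n).1 ∧ IsCompact (AB n).2 ∧
        (∀ a ∈ (AB n).1, ∀ b ∈ (AB n).2, a * b ∈ W) ∧ (AB n).1 ⊆ L (n0 + n) ∧
        (AB n).2 ⊆ L (n0 + n) := by
      intro n
      induction n with
      | zero =>
        refine ⟨isCompact_singleton, isCompact_singleton, ?_, singleton_subset_iff.2 hx,
          singleton_subset_iff.2 hy⟩
        intro a ha b hb
        rw [show a = x from ha, show b = y from hb]
        exact hxy
      | succ n ih =>
        obtain ⟨i1, i2, i3, i4, i5⟩ := ih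
        rw [hs]
        exact ⟨(hc _).inter_left isClosed_closure, (hc _).inter_left isClosed_closure,
          s5 _ _ i1 i2 i3 i4 i5, inter_subset_right, inter_subset_right⟩
    have t1 := fun n => s1 _ _ (hinvt n).1 (hinvt n).2.1 (hinvt n).2.2.1 (hinvt n).2.2.2.1
      (hinvt n).2.2.2.2
    have t2 := fun n => s2 _ _ (hinvt n).1 (hinvt n).2.1 (hinvt n).2.2.1 (hinvt n).2.2.2.1
      (hinvt n).2.2.2.2
    have t3 := fun n => s3 _ _ (hinvt n).1 (hinvt n).2.1 (hinvt n).2.2.1 (hinvt n).2.2.2.1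
      (hinvt n).2.2.2.2
    have t4 := fun n => s4 _ _ (hinvt n).1 (hinvt n).2.1 (hinvt n).2.2.1 (hinvt n).2.2.2.1
      (hinvt n).2.2.2.2
    have m1 : Monotone fun n => (AB n).1 := monotone_nat_of_le_succ fun n z hz => by
      rw [hs]
      exact ⟨subset_closure (t3 n hz), hmono (Nat.le_succ _) ((hinvt n).2.2.2.1 hz)⟩
    have m2 : Monotone fun n => (AB n).2 := monotone_nat_of_le_succ fun n z hz => by
      rw [hs]
      exact ⟨subset_closure (t4 n hz), hmono (Nat.le_succ _) ((hinvt n).2.2.2.2 hz)⟩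
    refine ⟨⋃ n, (AB n).1, ⋃ n, (AB n).2, ?_, ?_, mem_iUnion.2 ⟨0, rfl⟩, mem_iUnion.2 ⟨0, rfl⟩, ?_⟩
    · refine isOpen_union_chain hmono n0 _ (fun n => (Φ (n0 + n) (AB n)).1) t1 t3 ?_ m1
      intro n z hz
      rw [hs]
      exact ⟨subset_closure hz.1, hz.2⟩
    · refine isOpen_union_chain hmono n0 _ (fun n => (Φ (n0 + n) (AB n)).2) t2 t4 ?_ m2
      intro n z hz
      rw [hs]
      exact ⟨subset_closure hz.1, hz.2⟩
    · rintro ⟨a, b⟩ ⟨ha, hb⟩
      obtain ⟨i, hi⟩ := mem_iUnion.1 ha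
      obtain ⟨j, hj⟩ := mem_iUnion.1 hb
      exact (hinvt (max i j)).2.2.1 a (m1 (le_max_left i j) hi) b (m2 (le_max_right i j) hj)
  have hi : @Continuous G G (kTop L hL) (kTop L hL) (fun a => a⁻¹) := by
    refine @Continuous.mk G G (kTop L hL) (kTop L hL) _ fun W hW n => ?_
    have : L n \ (fun a => a⁻¹) ⁻¹' W = (fun a => a⁻¹) ⁻¹' (L n \ W) := by
      ext z
      simp only [Set.mem_sdiff, mem_preimage]
      exact ⟨fun h => ⟨hinv n z h.1, h.2⟩, fun h => ⟨by simpa using hinv n _ h.1, h.2⟩⟩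
    rw [this]
    exact (hW n).preimage continuous_inv
  exact @IsTopologicalGroup.mk G (kTop L hL) _ (@ContinuousMul.mk G (kTop L hL) _ hm)
    (@ContinuousInv.mk G (kTop L hL) _ hi)

end Grp

/-- countable tightness, in the form: sets closed under closures of countable subsets are closed -/
def Tight (X : Type) [TopologicalSpace X] : Prop :=
  ∀ C : Set X, (∀ B ⊆ C, B.Countable → closure B ⊆ C) → IsClosed C

theorem Tight.prod {Y Z : Type} [TopologicalSpace Y] [TopologicalSpace Z] [CompactSpace Z]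
    [T2Space Z] (hY : Tight Y) (hZ : Tight Z) : Tight (Y × Z) := by
  intro C hC
  rw [← closure_subset_iff_isClosed]
  rintro ⟨y, k⟩ hyk
  have h1 : IsClosed {k' | (y, k') ∈ C} := by
    refine hZ _ fun B hB hBc z hz => ?_
    refine hC (Prod.mk y '' B) (by rintro _ ⟨b, hb, rfl⟩; exact hB hb) (hBc.image _) ?_
    exact image_closure_subset_closure_image (Continuous.prodMk_right y) ⟨z, hz, rfl⟩
  have h2 : k ∈ closure {k' | (y, k') ∈ C} := by
    rw [mem_closure_iff_nhds_basis' (closed_nhds_basis k)]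
    rintro N ⟨hN, hNc⟩
    have h3 : IsClosed (Prod.fst '' (C ∩ univ ×ˢ N)) := by
      refine hY _ fun B hB hBc => ?_
      have : Nonempty (Y × Z) := ⟨(y, k)⟩
      choose! f hf1 hf2 using fun b (hb : b ∈ B) => hB hb
      have h4 : closure (f '' B) ⊆ C ∩ univ ×ˢ N := by
        refine subset_inter (hC _ ?_ (hBc.image _)) (closure_minimal ?_ (isClosed_univ.prod hNc))
        · rintro _ ⟨b, hb, rfl⟩
          exact (hf1 b hb).1
        · rintro _ ⟨b, hb, rfl⟩
          exact (hf1 b hb).2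
      have h5 : IsClosed (Prod.fst '' closure (f '' B)) :=
        isClosedMap_fst_of_compactSpace _ isClosed_closure
      refine (closure_minimal (fun b hb => ?_) h5).trans (image_mono h4)
      exact ⟨f b, subset_closure (mem_image_of_mem f hb), hf2 b hb⟩
    have h6 : (y, k) ∈ closure (C ∩ univ ×ˢ N) := by
      rw [mem_closure_iff_frequently] at hyk ⊢
      exact hyk.and_eventually (prod_mem_nhds univ_mem hN)
    have h7 : y ∈ Prod.fst '' (C ∩ univ ×ˢ N) :=
      h3.closure_subset (image_closure_subset_closure_image continuous_fst ⟨_, h6, rfl⟩)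
    obtain ⟨⟨y', k'⟩, ⟨h8, -, h9⟩, rfl⟩ := h7
    exact ⟨k', h9, h8⟩
  exact h1.closure_subset h2

end H453Z.Kw
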