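import Pool.Agent.H453Z.Kw.Stage
import Pool.Agent.H453Z.Kw.Grp

set_option autoImplicit false

open Filter Topology Set

namespace H453Z.Kw

open Pool.Agent.Helper292.ForceCH

instance : TopologicalSpace R3 := ⊥
instance : DiscreteTopology R3 := ⟨rfl⟩

/-- the compact set -/
def KK (x : Om → Om → R3) : Set (Om → R3) := range fun q : R3 × Om => q.1 • x q.2

theorem mem_closure_fin {s : Set (Om → R3)} {y : Om → R3} :
    y ∈ closure s ↔ ∀ F : Finset Om, ∃ z ∈ s, ∀ δ ∈ F, z δ = y δ := by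
  rw [mem_closure_iff_nhds]
  constructor
  · intro h F
    have h1 : ∀ᶠ z in 𝓝 y, ∀ δ ∈ F, z δ = y δ := by
      rw [eventually_all_finset]
      intro i _
      exact ((continuous_apply i).tendsto y).eventually (p := fun w => w = y i)
        (by simp [nhds_discrete])
    obtain ⟨z, hz1, hz2⟩ := h _ h1
    exact ⟨z, hz2, hz1⟩
  · intro h t ht
    rw [nhds_pi, Filter.mem_pi'] at ht
    obtain ⟨I, u, hu, hI⟩ := ht
    obtain ⟨z, hz1, hz2⟩ := h I
    refine ⟨z, hI fun i hi => ?_, hz1⟩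
    rw [hz2 i hi]
    exact mem_of_mem_nhds (hu i)

variable {A : Om → Om → Prop} {x : Om → Om → R3}

theorem Mat.le_of_ne (h : Mat A x) {ε : R3} {α β : Om} (h1 : ε * x α β ≠ 0) : α ≤ β := by
  by_contra h2
  exact h1 (by rw [h.low α β (not_le.1 h2), mul_zero])

theorem Mat.isClosed (h : Mat A x) : IsClosed (KK x) := by
  classical
  rw [← closure_subset_iff_isClosed]
  intro y hy
  rw [mem_closure_fin] at hy
  by_cases h0 : ∀ β, y β = 0
  · exact ⟨(0, Classical.arbitrary _), by funext β; simp [h0 β]⟩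
  push Not at h0
  obtain ⟨β0, hβ0, hmin⟩ := (wellFounded_lt (α := Om)).has_min {β | y β ≠ 0} h0
  refine ⟨(y β0, β0), ?_⟩
  funext β
  show y β0 * x β0 β = y β
  induction β using WellFoundedLT.induction with
  | ind β ih =>
    rcases lt_trichotomy β β0 with h1 | rfl | h1
    · rw [h.low _ _ h1, mul_zero]
      exact (not_not.1 fun h2 => hmin β h2 h1).symm
    · rw [h.diag, mul_one]
    · obtain ⟨F, hF1, hF2⟩ := h.loc β β0 (y β0) h1 hβ0
      obtain ⟨_, ⟨⟨ε, α⟩, rfl⟩, hz⟩ := hy (insert β (insert β0 F))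
      have h2 : ε * x α β0 = y β0 := hz β0 (by simp)
      have h3 : ε * x α β = y β := hz β (by simp)
      have h4 : α < β := (h.le_of_ne (by rw [h2]; exact hβ0)).trans_lt h1
      rw [← h3]
      refine (hF2 α ε h4 fun γ hγ => ?_).symm
      rw [ih γ (hF1 γ hγ)]
      exact hz γ (by simp [hγ])

theorem Mat.eq_of_agree (h : Mat A x) {y z : Om → R3} (hy : y ∈ KK x) (hz : z ∈ KK x) {β : Om}
    (h1 : y β ≠ 0) (h2 : ∀ δ ≤ β, y δ = z δ) : y = z := by
  obtain ⟨⟨ε, α⟩, rfl⟩ := hy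
  obtain ⟨⟨ε', α'⟩, rfl⟩ := hz
  have a1 : ε * x α β ≠ 0 := h1
  have a2 : ε' * x α' β ≠ 0 := by
    have : ε * x α β = ε' * x α' β := h2 β le_rfl
    rwa [← this]
  have a3 : ε * x α α = ε' * x α' α := h2 α (h.le_of_ne a1)
  have a4 : ε * x α α' = ε' * x α' α' := h2 α' (h.le_of_ne a2)
  rw [h.diag, mul_one] at a3 a4
  have a5 : α' ≤ α := h.le_of_ne (a3 ▸ left_ne_zero_of_mul a1)
  have a6 : α ≤ α' := h.le_of_ne (a4.symm ▸ left_ne_zero_of_mul a2)
  obtain rfl : α = α' := le_antisymm a6 a5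
  rw [h.diag, mul_one] at a3
  rw [a3]

/-- the points of the compact space -/
def pt (x : Om → Om → R3) (ε : R3) (α : Om) : KK x := ⟨ε • x α, (ε, α), rfl⟩

/-- the point at infinity -/
def z0 (x : Om → Om → R3) : KK x := ⟨0, (0, Classical.arbitrary _), by simp⟩

/-- the involution -/
def ng (z : KK x) : KK x := ⟨-z.1, by
  obtain ⟨⟨ε, α⟩, h⟩ := z.2
  exact ⟨(-ε, α), by rw [← h]; simp⟩⟩

theorem exists_pt (z : KK x) : ∃ ε α, z = pt x ε α := by
  obtain ⟨_, ⟨ε, α⟩, rfl⟩ := z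
  exact ⟨ε, α, rfl⟩

theorem pt_zero (α : Om) : pt x 0 α = z0 x := Subtype.ext (by simp [pt, z0])

theorem ng_pt (ε : R3) (α : Om) : ng (pt x ε α) = pt x (-ε) α := Subtype.ext (by simp [pt, ng])

theorem Mat.pt_ne (h : Mat A x) {ε : R3} (hε : ε ≠ 0) (α : Om) : pt x ε α ≠ z0 x := by
  intro h1
  have : ε * x α α = 0 := congrFun (congrArg Subtype.val h1) α
  rw [h.diag, mul_one] at this
  exact hε this

theorem mem_closure_fin' {s : Set (KK x)} {y : KK x} :
    y ∈ closure s ↔ ∀ F : Finset Om, ∃ z ∈ s, ∀ δ ∈ F, z.1 δ = y.1 δ := by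
  rw [closure_subtype, mem_closure_fin]
  simp

theorem Mat.compactSpace (h : Mat A x) : CompactSpace (KK x) :=
  isCompact_iff_compactSpace.1 h.isClosed.isCompact

theorem Mat.countablyGenerated (h : Mat A x) {z : KK x} (hz : z ≠ z0 x) :
    (𝓝 z).IsCountablyGenerated := by
  have := h.compactSpace
  obtain ⟨β, hβ⟩ : ∃ β, z.1 β ≠ 0 := by
    by_contra h1
    push Not at h1
    exact hz (Subtype.ext (funext h1))
  have hc : Continuous fun k : KK x => k.1 β := (continuous_apply β).comp continuous_subtype_val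
  let N : Set (KK x) := (fun k : KK x => k.1 β) ⁻¹' {z.1 β}
  have hNo : IsOpen N := (isOpen_discrete _).preimage hc
  have hNc : IsClosed N := (isClosed_discrete _).preimage hc
  have : CompactSpace N := isCompact_iff_compactSpace.1 hNc.isCompact
  have : Countable (Iic β) := (countable_Iic' β).to_subtype
  let r : N → Iic β → R3 := fun k δ => k.1.1 δ
  have hr : Continuous r := continuous_pi fun δ =>
    (continuous_apply δ.1).comp (continuous_subtype_val.comp continuous_subtype_val)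
  have hri : Function.Injective r := by
    intro k k' hk
    refine Subtype.ext (Subtype.ext (h.eq_of_agree k.1.2 k'.1.2 (β := β) ?_ fun δ hδ => ?_))
    · have : k.1.1 β = z.1 β := k.2
      rwa [this]
    · exact congrFun hk ⟨δ, hδ⟩
  have : FirstCountableTopology N := (hr.isClosedEmbedding hri).isInducing.firstCountableTopology
  have h2 := hNo.isOpenEmbedding_subtypeVal.map_nhds_eq ⟨z, rfl⟩
  simp only at h2
  rw [← h2]
  infer_instance

theorem Mat.mem_closure_pt (h : Mat A x) {γ β : Om} (hγ : Acc A x γ γ) (hβ : γ ≤ β) {ε : R3}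
    (hε : ε ≠ 0) (η : R3) (hη : η ≠ 0) :
    pt x ε β ∈ closure {z | ∃ α, A γ α ∧ α < γ ∧ z = pt x η α} := by
  classical
  have := h.compactSpace
  set B := {z | ∃ α, A γ α ∧ α < γ ∧ z = pt x η α} with hB
  have hc : ∀ δ, Continuous fun k : KK x => k.1 δ := fun δ =>
    (continuous_apply δ).comp continuous_subtype_val
  let T : Finset Om → Set (KK x) := fun F =>
    closure B ∩ ({k | k.1 β = ε} ∩ ⋂ δ ∈ F.filter (· < β), {k | k.1 δ = 0})
  have hT : ∀ F, IsClosed (T F) := fun F => isClosed_closure.inter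
    ((isClosed_eq (hc β) continuous_const).inter
      (isClosed_biInter fun δ _ => isClosed_eq (hc δ) continuous_const))
  have hηη : ∀ w : R3, w ≠ 0 → w * w = 1 := by decide
  obtain ⟨k, hk⟩ := IsCompact.nonempty_iInter_of_directed_nonempty_isCompact_isClosed T
    (by
      intro F F'
      refine ⟨F ∪ F', ?_, ?_⟩
      · refine inter_subset_inter_right _ (inter_subset_inter_right _ ?_)
        exact biInter_subset_biInter_left (Finset.filter_subset_filter _ Finset.subset_union_left)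
      · refine inter_subset_inter_right _ (inter_subset_inter_right _ ?_)
        exact biInter_subset_biInter_left (Finset.filter_subset_filter _ Finset.subset_union_right))
    (by
      intro F
      obtain ⟨α, a1, a2, a3, a4⟩ := h.task β γ hβ (h.acc hγ β) (η * ε) (F.filter (· < β))
        fun δ hδ => (Finset.mem_filter.1 hδ).2
      refine ⟨pt x η α, subset_closure ⟨α, a1, a2, rfl⟩, ?_, mem_iInter₂.2 fun δ hδ => ?_⟩
      · show η * x α β = ε
        rw [a4, ← mul_assoc, hηη η hη, one_mul]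
      · show η * x α δ = 0
        rw [a3 δ hδ, mul_zero])
    (fun F => (hT F).isCompact) hT
  rw [mem_iInter] at hk
  have h1 : k = pt x ε β := by
    have h2 : k.1 β = ε := (hk ∅).2.1
    refine Subtype.ext (h.eq_of_agree k.2 (pt x ε β).2 (β := β) (h2 ▸ hε) fun δ hδ => ?_)
    show k.1 δ = ε * x β δ
    rcases hδ.lt_or_eq with h3 | rfl
    · rw [h.low _ _ h3, mul_zero]
      exact mem_iInter₂.1 (hk {δ}).2.2 δ (by simp [h3])
    · rw [h.diag, mul_one, h2]
  rw [← h1]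
  exact (hk ∅).1

/-- the Ostaszewski property -/
theorem Mat.ost (h : Mat A x) (hA : ∀ S : Om → Prop, ∀ C : Om → Prop,
    IsClub C → ∃ a : Om, C a ∧ ∀ b : Om, b < a → (S b ↔ A a b)) {C : Set (KK x)}
    (h0 : z0 x ∉ C) (hC : z0 x ∈ closure C) :
    ∃ B ⊆ C, B.Countable ∧ z0 x ∈ closure B ∧
      ∃ γ, ∀ β, γ ≤ β → ∀ ε, ε ≠ 0 → pt x ε β ∈ closure B := by
  classical
  have hηη : ∀ w : R3, w ≠ 0 → w = 1 ∨ w = -1 := by decide
  obtain ⟨η, hη, hηC⟩ : ∃ η : R3, η ≠ 0 ∧ z0 x ∈ closure {z | z ∈ C ∧ ∃ α, z = pt x η α} := by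
    have h1 : C ⊆ {z | z ∈ C ∧ ∃ α, z = pt x 1 α} ∪ {z | z ∈ C ∧ ∃ α, z = pt x (-1) α} := by
      intro z hz
      obtain ⟨ε, α, rfl⟩ := exists_pt z
      rcases hηη ε (fun h2 => h0 (by rw [← pt_zero α, ← h2]; exact hz)) with rfl | rfl
      · exact Or.inl ⟨hz, α, rfl⟩
      · exact Or.inr ⟨hz, α, rfl⟩
    have h2 := closure_mono h1 hC
    rw [closure_union] at h2
    rcases h2 with h2 | h2
    · exact ⟨1, by decide, h2⟩
    · exact ⟨-1, by decide, h2⟩
  obtain ⟨γ, hγ1, hγ2⟩ := exists_guess hA x (fun α => pt x η α ∈ C) (by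
    intro F
    obtain ⟨_, ⟨hz, α, rfl⟩, hF⟩ := mem_closure_fin'.1 hηC F
    refine ⟨α, hz, fun δ hδ => ?_⟩
    have : η * x α δ = 0 := hF δ hδ
    exact (mul_eq_zero.1 this).resolve_left hη)
  refine ⟨{z | ∃ α, A γ α ∧ α < γ ∧ z = pt x η α}, ?_, ?_, ?_, γ,
    fun β hβ ε hε => h.mem_closure_pt hγ1 hβ hε η hη⟩
  · rintro _ ⟨α, a1, a2, rfl⟩
    exact (hγ2 α a2).2 a1
  · refine ((countable_Iio' γ).image (pt x η)).mono ?_
    rintro _ ⟨α, -, a2, rfl⟩
    exact ⟨α, a2, rfl⟩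
  · refine mem_closure_fin'.2 fun F => ?_
    obtain ⟨β, hβ⟩ := exists_bound' F.countable_toSet
    obtain ⟨α, a1, a2, a3⟩ := h.acc hγ1 β F hβ
    refine ⟨_, ⟨α, a1, a2, rfl⟩, fun δ hδ => ?_⟩
    show η * x α δ = 0
    rw [a3 δ hδ, mul_zero]

theorem Mat.z0_mem (h : Mat A x) : z0 x ∈ closure ({z0 x}ᶜ : Set (KK x)) := by
  refine mem_closure_fin'.2 fun F => ?_
  obtain ⟨β, hβ⟩ := exists_bound' F.countable_toSet
  refine ⟨pt x 1 β, h.pt_ne (by decide) β, fun δ hδ => ?_⟩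
  show 1 * x β δ = 0
  rw [h.low _ _ (hβ δ hδ), mul_zero]

section

variable (h : Mat A x) (hA : ∀ S : Om → Prop, ∀ C : Om → Prop,
    IsClub C → ∃ a : Om, C a ∧ ∀ b : Om, b < a → (S b ↔ A a b))
include h hA

theorem Mat.tight : Tight (KK x) := by
  intro C hC
  rw [← closure_subset_iff_isClosed]
  intro z hz
  by_cases h1 : z = z0 x
  · by_contra h2
    rw [h1] at hz h2
    obtain ⟨B, b1, b2, b3, -⟩ := h.ost hA h2 hz
    exact h2 (hC B b1 b2 b3)
  · have := h.countablyGenerated h1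
    have := mem_closure_iff_nhdsWithin_neBot.1 hz
    obtain ⟨u, hu⟩ := (𝓝[C] z).exists_seq_tendsto
    obtain ⟨hu1, hu2⟩ := tendsto_nhdsWithin_iff.1 hu
    refine hC (range u ∩ C) inter_subset_right ((countable_range u).mono inter_subset_left) ?_
    exact mem_closure_of_tendsto hu1 (hu2.mono fun n hn => ⟨⟨n, rfl⟩, hn⟩)

theorem Mat.not_tendsto (u : ℕ → KK x) (hu : ∀ n, u n ≠ z0 x) :
    ¬ Tendsto u atTop (𝓝 (z0 x)) := by
  intro ht
  obtain ⟨B, b1, -, -, γ, hγ⟩ := h.ost hA (C := range u) (by rintro ⟨n, hn⟩; exact hu n hn)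
    (mem_closure_of_tendsto ht (Eventually.of_forall fun n => ⟨n, rfl⟩))
  have h1 : closure B ⊆ insert (z0 x) (range u) :=
    closure_minimal (b1.trans (subset_insert _ _)) ht.isCompact_insert_range.isClosed
  have h2 : Function.Injective (pt x 1) := by
    intro α β hαβ
    have a1 : 1 * x α α = 1 * x β α := congrFun (congrArg Subtype.val hαβ) α
    have a2 : 1 * x α β = 1 * x β β := congrFun (congrArg Subtype.val hαβ) β
    rw [h.diag] at a1 a2
    exact le_antisymm (h.le_of_ne (ε := 1) (by rw [a2]; decide))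
      (h.le_of_ne (ε := 1) (by rw [← a1]; decide))
  have h3 : (pt x 1 ⁻¹' insert (z0 x) (range u)).Countable :=
    ((countable_range u).insert _).preimage h2
  obtain ⟨c, hc⟩ := exists_bound' h3
  exact absurd (hc (max c γ) (h1 (hγ _ (le_max_right c γ) 1 (by decide))))
    (not_lt.2 (le_max_left c γ))

theorem Mat.continuous (H : Type) [Group H] [TopologicalSpace H] [IsTopologicalGroup H]
    (ψ : KK x → H) (hψ : SeqContinuous ψ) (h1 : ∀ z, ψ (ng z) = (ψ z)⁻¹)
    (h3 : ∀ z, ψ z ^ 3 = 1) : Continuous ψ := by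
  have := h.compactSpace
  have hsq : ∀ z, ψ z * ψ z = (ψ z)⁻¹ := fun z => by
    rw [eq_inv_iff_mul_eq_one, ← h3 z, pow_three]
    group
  have hat : ∀ z, z ≠ z0 x → ContinuousAt ψ z := by
    intro z hz
    have := h.countablyGenerated hz
    exact tendsto_of_seq_tendsto fun u hu => hψ hu
  have hψ0 : ψ (z0 x) = 1 := by
    have a1 : ng (z0 x) = z0 x := Subtype.ext (by simp [ng, z0])
    have a2 := h1 (z0 x)
    rw [a1] at a2
    have a3 := hsq (z0 x)
    rw [← a2] at a3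
    simpa using a3
  have hclosed : ∀ D : Set H, IsClosed D → z0 x ∈ closure ({z0 x}ᶜ ∩ ψ ⁻¹' D) →
      ∃ γ, ∀ β, γ ≤ β → ∀ ε, ε ≠ 0 → ψ (pt x ε β) ∈ D := by
    intro D hD hcl
    obtain ⟨B, b1, -, -, γ, hγ⟩ := h.ost hA (fun h2 => h2.1 rfl) hcl
    refine ⟨γ, fun β hβ ε hε => ?_⟩
    have := (hat _ (h.pt_ne hε β)).continuousWithinAt.mem_closure_image (hγ β hβ ε hε)
    refine closure_minimal ?_ hD this
    rintro _ ⟨b, hb, rfl⟩
    exact (b1 hb).2
  rw [continuous_iff_continuousAt]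
  intro z
  by_cases hz : z = z0 x
  swap
  · exact hat z hz
  rw [hz, ContinuousAt, hψ0]
  refine (nhds_basis_opens (1 : H)).tendsto_right_iff.2 ?_
  rintro V ⟨hV1, hVo⟩
  by_contra hcon
  have hcl1 : z0 x ∈ closure ({z0 x}ᶜ ∩ ψ ⁻¹' Vᶜ) := by
    rw [mem_closure_iff_frequently]
    refine (not_eventually.1 hcon).mono fun w hw => ⟨fun h2 => hw ?_, hw⟩
    rw [show w = z0 x from h2, hψ0]
    exact hV1
  obtain ⟨γ1, hγ1⟩ := hclosed _ hVo.isClosed_compl hcl1
  obtain ⟨W0, hW0, hWV⟩ := exists_nhds_split_inv (hVo.mem_nhds hV1)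
  obtain ⟨W, ⟨hW, hWc⟩, hWW⟩ := (closed_nhds_basis (1 : H)).mem_iff.1 hW0
  obtain ⟨g, hg⟩ : ∃ g : H, z0 x ∈ closure ({z0 x}ᶜ ∩ ψ ⁻¹' {y | y / g ∈ W}) := by
    by_contra hno
    push Not at hno
    have a1 : ∀ F : Finset (KK x), ∃ w, w ≠ z0 x ∧ ∀ v ∈ F, ψ w / ψ v ∉ W := by
      intro F
      have a2 : ∀ᶠ w in 𝓝 (z0 x), ∀ v ∈ F, w ∉ {z0 x}ᶜ ∩ ψ ⁻¹' {y | y / ψ v ∈ W} := by
        rw [eventually_all_finset]
        intro v _
        have := hno (ψ v)
        rw [mem_closure_iff_frequently, not_frequently] at this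
        exact this
      obtain ⟨w, hw1, hw2⟩ := ((mem_closure_iff_frequently.1 h.z0_mem).and_eventually a2).exists
      exact ⟨w, hw1, fun v hv h2 => hw2 v hv ⟨hw1, h2⟩⟩
    obtain ⟨u, hu1, hu2⟩ := exists_seq_of_forall_finset_exists (fun w => w ≠ z0 x)
      (fun v w => ψ w / ψ v ∉ W) (fun F _ => a1 F)
    obtain ⟨w, hw1, hw2⟩ : ∃ w, MapClusterPt w atTop u ∧ w ≠ z0 x := by
      by_contra h2
      push Not at h2
      exact h.not_tendsto hA u hu1 (tendsto_nhds_of_unique_mapClusterPt h2)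
    obtain ⟨W', hW', hWW'⟩ := exists_nhds_split_inv hW
    have a3 : ∀ᶠ v in 𝓝 w, ψ v / ψ w ∈ W' := by
      have a4 : Tendsto (fun v => ψ v / ψ w) (𝓝 w) (𝓝 (ψ w / ψ w)) :=
        (hat w hw2).div' tendsto_const_nhds
      rw [div_self'] at a4
      exact a4 hW'
    have a5 := hw1.frequently a3
    obtain ⟨m, hm⟩ := a5.exists
    obtain ⟨n, hn1, hn2⟩ := (a5.and_eventually (eventually_gt_atTop m)).exists
    have a6 := hWW' _ hn1 _ hm
    rw [div_div_div_cancel_right] at a6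
    exact hu2 m n hn2 a6
  obtain ⟨γ2, hγ2⟩ := hclosed {y | y / g ∈ W} (hWc.preimage (continuous_id.div' continuous_const)) hg
  have b1 := hγ2 _ (le_max_right γ1 γ2) 1 (by decide)
  have b2 := hγ2 _ (le_max_right γ1 γ2) (-1) (by decide)
  have b3 := hγ1 _ (le_max_left γ1 γ2) (-1) (by decide)
  have b4 := hWV _ (hWW b1) _ (hWW b2)
  rw [div_div_div_cancel_right, ← ng_pt, h1, div_inv_eq_mul, hsq, ← h1, ng_pt] at b4
  exact b3 b4

end

theorem main (hD : Diamond) :
    ∃ (G : Type) (_ : Group G) (_ : TopologicalSpace G), IsTopologicalGroup G ∧ T2Space G ∧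
      (∀ (H : Type) [Group H] [TopologicalSpace H] [IsTopologicalGroup H] [T2Space H]
        (φ : G →* H), SeqContinuous φ → Continuous φ) ∧
      (∀ (A : Set G) (x : G), x ∈ closure A → ∃ B ⊆ A, B.Countable ∧ x ∈ closure B) ∧
      (∀ A : Set G, (∀ K : Set G, IsCompact K → IsClosed (A ∩ K)) → IsClosed A) ∧
      ¬ SequentialSpace G := by
  obtain ⟨A, hA⟩ := hD
  obtain ⟨x, h⟩ := exists_mat A
  have := h.compactSpace
  have : T2Space (Multiplicative (Om → R3)) := inferInstanceAs (T2Space (Om → R3))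
  refine exists_group (E := Multiplicative (Om → R3)) (h.tight hA)
    (fun z => Multiplicative.ofAdd z.1) (continuous_ofAdd.comp continuous_subtype_val)
    (fun a b hab => Subtype.ext hab) ng (fun z => rfl) (fun z => ?_) (z0 x) rfl
    (h.not_tendsto hA) h.z0_mem fun H _ _ _ _ ψ => h.continuous hA H ψ
  rw [← ofAdd_nsmul]
  have : ∀ w : R3, 3 • w = 0 := by decide
  exact congrArg Multiplicative.ofAdd (funext fun i => this (z.1 i))

end H453Z.Kw
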