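import Pool.Agent.H453Z.Kw.Defs

set_option autoImplicit false

open Filter Topology Set

namespace H453Z.Kw

open Pool.Agent.Helper292.ForceCH

abbrev R3 : Type := ZMod 3

theorem countable_Iio' (a : Om) : (Iio a).Countable :=
  Set.countable_coe_iff.1 (countable_Iio a)

theorem countable_Iic' (a : Om) : (Iic a).Countable := by
  rw [← Iio_insert]
  exact (countable_Iio' a).insert a

theorem exists_bound' {s : Set Om} (hs : s.Countable) : ∃ c, ∀ a ∈ s, a < c := by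
  rcases s.eq_empty_or_nonempty with rfl | hne
  · exact ⟨Classical.arbitrary _, by simp⟩
  · obtain ⟨g, rfl⟩ := hs.exists_eq_range hne
    obtain ⟨c, hc⟩ := exists_bound g
    exact ⟨c, by rintro _ ⟨n, rfl⟩; exact hc n⟩

theorem isClub_closure (f : Om → Om) : IsClub fun a => (∃ b, b < a) ∧ ∀ b < a, f b < a := by
  constructor
  · intro a
    have h0 : ∀ a : Om, ∃ c, a < c ∧ ∀ b ≤ a, f b < c := by
      intro a
      obtain ⟨c, hc⟩ := exists_bound' (((countable_Iic' a).image f).insert a)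
      exact ⟨c, hc a (mem_insert _ _), fun b hb => hc _ (mem_insert_of_mem _ ⟨b, hb, rfl⟩)⟩
    choose g hg1 hg2 using h0
    let s : ℕ → Om := fun k => g^[k] a
    have hs : ∀ k, s (k + 1) = g (s k) := fun k => Function.iterate_succ_apply' g k a
    refine ⟨ub s, lt_ub s 0, ⟨a, lt_ub s 0⟩, fun b hb => ?_⟩
    obtain ⟨k, hk⟩ := ub_le s hb
    have h1 : f b < s (k + 1) := by
      rw [hs]
      exact hg2 _ b hk
    exact h1.trans (lt_ub s (k + 1))
  · intro a hne h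
    refine ⟨hne, fun b hb => ?_⟩
    obtain ⟨c, ⟨h1, h2⟩, -, h3⟩ := h b hb
    exact (h3 b h1).trans h2

/-- zero is in the closure of the rows indexed by the set guessed at `γ`, as seen by the
coordinates below `β` -/
def Acc (A : Om → Om → Prop) (x : Om → Om → R3) (β γ : Om) : Prop :=
  ∀ F : Finset Om, (∀ δ ∈ F, δ < β) → ∃ α, A γ α ∧ α < γ ∧ ∀ δ ∈ F, x α δ = 0

theorem stage (A : Om → Om → Prop) (β : Om) (x : Om → Om → R3) :
    ∃ Ψ : (Om → R3) → R3, (∀ z z', (∀ γ < β, z γ = z' γ) → Ψ z = Ψ z') ∧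
      (∀ (ε : R3) z, Ψ (ε • z) = ε * Ψ z) ∧
      (∀ z, (∃ γ < β, z γ ≠ 0) → ∃ F : Finset Om, (∀ γ ∈ F, γ < β) ∧
        ∀ z', (∀ γ ∈ F, z' γ = z γ) → Ψ z' = Ψ z) ∧
      ((∀ α < β, x α α ≠ 0) → ∀ γ ≤ β, Acc A x β γ → ∀ (v : R3) (F : Finset Om),
        (∀ δ ∈ F, δ < β) → ∃ α, A γ α ∧ α < γ ∧ (∀ δ ∈ F, x α δ = 0) ∧ Ψ (x α) = v) := by
  classical
  rcases (Iio β).eq_empty_or_nonempty with hemp | hne
  · refine ⟨fun _ => 0, fun _ _ _ => rfl, fun _ _ => by simp, fun z _ => ⟨∅, by simp, fun _ _ => rfl⟩,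
      fun _ γ hγ hA v F hF => ?_⟩
    obtain ⟨α, -, hα, -⟩ := hA F hF
    have : α ∈ Iio β := hα.trans_le hγ
    rw [hemp] at this
    exact this.elim
  obtain ⟨e, he⟩ := (countable_Iio' β).exists_eq_range hne
  have he1 : ∀ n, e n < β := fun n => by
    have : e n ∈ Iio β := he ▸ mem_range_self n
    exact this
  have he2 : ∀ γ < β, ∃ n, e n = γ := fun γ hγ => by
    have : γ ∈ range e := he ▸ hγ
    exact this
  have : Countable (Iic β) := (countable_Iic' β).to_subtype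
  have : Nonempty (Iic β) := ⟨⟨β, le_refl β⟩⟩
  obtain ⟨s, hs⟩ := exists_surjective_nat (Iic β × R3 × ℕ)
  have h1 : ∀ k n : ℕ, ∃ (α : Om) (l : ℕ), n < l ∧ ((∀ α < β, x α α ≠ 0) → Acc A x β (s k).1 →
      A (s k).1 α ∧ α < (s k).1 ∧ x α (e l) ≠ 0 ∧ ∀ i < l, x α (e i) = 0) := by
    intro k n
    by_cases h : (∀ α < β, x α α ≠ 0) ∧ Acc A x β (s k).1
    · obtain ⟨α, a1, a2, a3⟩ := h.2 ((Finset.range (n + 1)).image e) (by
        intro δ hδ
        obtain ⟨i, -, rfl⟩ := Finset.mem_image.1 hδ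
        exact he1 i)
      have hα : α < β := a2.trans_le (s k).1.2
      have hex : ∃ i, x α (e i) ≠ 0 := by
        obtain ⟨i, hi⟩ := he2 α hα
        exact ⟨i, hi ▸ h.1 α hα⟩
      refine ⟨α, Nat.find hex, ?_, fun _ _ => ⟨a1, a2, Nat.find_spec hex, fun i hi => ?_⟩⟩
      · by_contra hle
        exact Nat.find_spec hex (a3 _ (Finset.mem_image_of_mem e (Finset.mem_range.2 (by omega))))
      · exact not_not.1 (Nat.find_min hex hi)
    · exact ⟨β, n + 1, Nat.lt_succ_self n, fun a b => absurd ⟨a, b⟩ h⟩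
  choose a l hl hal using h1
  let N : ℕ → ℕ := fun k => Nat.rec (s 0).2.2 (fun k n => max (l k n) (s (k + 1)).2.2) k
  have hNs : ∀ k, N (k + 1) = max (l k (N k)) (s (k + 1)).2.2 := fun k => rfl
  have hN1 : ∀ k, (s k).2.2 ≤ N k := by
    intro k
    cases k with
    | zero => exact le_rfl
    | succ k => rw [hNs]; exact le_max_right _ _
  have hL : StrictMono fun k => l k (N k) := strictMono_nat_of_lt_succ fun k =>
    lt_of_le_of_lt (by rw [hNs]; exact le_max_left _ _) (hl (k + 1) (N (k + 1)))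
  let d : ℕ → R3 := Function.extend (fun k => l k (N k))
    (fun k => (s k).2.1 * x (a k (N k)) (e (l k (N k)))) 0
  have hd : ∀ k, d (l k (N k)) = (s k).2.1 * x (a k (N k)) (e (l k (N k))) := fun k =>
    hL.injective.extend_apply _ _ k
  let Ψ : (Om → R3) → R3 := fun z =>
    if h : ∃ i, z (e i) ≠ 0 then d (Nat.find h) * z (e (Nat.find h)) else 0
  have hΨ : ∀ z i, z (e i) ≠ 0 → (∀ j < i, z (e j) = 0) → Ψ z = d i * z (e i) := by
    intro z i h1 h2
    have hex : ∃ i, z (e i) ≠ 0 := ⟨i, h1⟩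
    have : Nat.find hex = i := by
      rw [Nat.find_eq_iff]
      exact ⟨h1, fun j hj => not_not.2 (h2 j hj)⟩
    simp only [Ψ, dif_pos hex, this]
  have hΨ0 : ∀ z, (∀ i, z (e i) = 0) → Ψ z = 0 := by
    intro z h
    have : ¬ ∃ i, z (e i) ≠ 0 := fun ⟨i, hi⟩ => hi (h i)
    simp only [Ψ, dif_neg this]
  have hcase : ∀ z : Om → R3, (∀ i, z (e i) = 0) ∨ ∃ i, z (e i) ≠ 0 ∧ ∀ j < i, z (e j) = 0 := by
    intro z
    by_cases hex : ∃ i, z (e i) ≠ 0
    · exact Or.inr ⟨Nat.find hex, Nat.find_spec hex, fun j hj => not_not.1 (Nat.find_min hex hj)⟩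
    · exact Or.inl fun i => not_not.1 fun h => hex ⟨i, h⟩
  refine ⟨Ψ, ?_, ?_, ?_, ?_⟩
  · intro z z' h
    rcases hcase z with h1 | ⟨i, h1, h2⟩
    · rw [hΨ0 z h1, hΨ0 z' fun i => by rw [← h _ (he1 i), h1]]
    · rw [hΨ z i h1 h2, hΨ z' i (by rwa [← h _ (he1 i)]) fun j hj => by
        rw [← h _ (he1 j), h2 j hj], h _ (he1 i)]
  · intro ε z
    by_cases hε : ε = 0
    · rw [hε, zero_mul]
      exact hΨ0 _ fun i => by simp
    · rcases hcase z with h1 | ⟨i, h1, h2⟩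
      · rw [hΨ0 z h1, hΨ0 _ fun i => by simp [h1 i], mul_zero]
      · rw [hΨ z i h1 h2, hΨ (ε • z) i (mul_ne_zero hε h1) fun j hj => by simp [h2 j hj]]
        simp only [Pi.smul_apply, smul_eq_mul]
        ring
  · rintro z ⟨γ, hγ, hz⟩
    rcases hcase z with h1 | ⟨i, h1, h2⟩
    · obtain ⟨n, rfl⟩ := he2 γ hγ
      exact absurd (h1 n) hz
    · refine ⟨(Finset.range (i + 1)).image e, ?_, fun z' hz' => ?_⟩
      · intro δ hδ
        obtain ⟨j, -, rfl⟩ := Finset.mem_image.1 hδ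
        exact he1 j
      · have h3 : ∀ j ≤ i, z' (e j) = z (e j) := fun j hj =>
          hz' _ (Finset.mem_image_of_mem e (Finset.mem_range.2 (by omega)))
        rw [hΨ z i h1 h2, hΨ z' i (by rwa [h3 i le_rfl]) fun j hj => by
          rw [h3 j hj.le, h2 j hj], h3 i le_rfl]
  · intro hx γ hγ hA v F hF
    choose! idx hidx using he2
    obtain ⟨k, hk⟩ := hs (⟨γ, hγ⟩, v, F.sup idx)
    have k1 : ((s k).1 : Om) = γ := by rw [hk]
    have k2 : (s k).2.1 = v := by rw [hk]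
    have k3 : (s k).2.2 = F.sup idx := by rw [hk]
    obtain ⟨b1, b2, b3, b4⟩ := hal k (N k) hx (by rwa [k1])
    rw [k1] at b1 b2
    refine ⟨a k (N k), b1, b2, fun δ hδ => ?_, ?_⟩
    · rw [← hidx δ (hF δ hδ)]
      refine b4 _ (lt_of_le_of_lt ?_ (hl k (N k)))
      exact (Finset.le_sup hδ).trans (k3 ▸ hN1 k)
    · rw [hΨ _ _ b3 b4, hd, k2]
      have : ∀ w : R3, w ≠ 0 → w * w = 1 := by decide
      rw [mul_assoc, this _ b3, mul_one]

/-- the properties of the matrix -/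
structure Mat (A : Om → Om → Prop) (x : Om → Om → R3) : Prop where
  diag : ∀ α, x α α = 1
  low : ∀ α β, β < α → x α β = 0
  loc : ∀ (β α : Om) (ε : R3), α < β → ε ≠ 0 → ∃ F : Finset Om, (∀ γ ∈ F, γ < β) ∧
    ∀ (α' : Om) (ε' : R3), α' < β → (∀ γ ∈ F, ε' * x α' γ = ε * x α γ) →
      ε' * x α' β = ε * x α β
  task : ∀ β γ, γ ≤ β → Acc A x β γ → ∀ (v : R3) (F : Finset Om),
    (∀ δ ∈ F, δ < β) → ∃ α, A γ α ∧ α < γ ∧ (∀ δ ∈ F, x α δ = 0) ∧ x α β = v

theorem exists_mat (A : Om → Om → Prop) : ∃ x, Mat A x := by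
  classical
  choose Ψ p0 p1 p2 p3 using stage A
  let tr : ∀ β : Om, (∀ γ, γ < β → Om → R3) → Om → Om → R3 := fun β prev α γ =>
    if h : γ < β then prev γ h α else 0
  let Φ : ∀ β : Om, (∀ γ, γ < β → Om → R3) → Om → R3 := fun β prev α =>
    if α < β then Ψ β (tr β prev) (tr β prev α) else if α = β then 1 else 0
  let c : Om → Om → R3 := (wellFounded_lt : WellFounded ((· < ·) : Om → Om → Prop)).fix Φ
  have hc : ∀ β, c β = Φ β (fun γ _ => c γ) := fun β => WellFounded.fix_eq _ _ _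
  let x : Om → Om → R3 := fun α β => c β α
  let y : Om → Om → Om → R3 := fun β => tr β (fun γ _ => c γ)
  have hy : ∀ β α γ, γ < β → y β α γ = x α γ := fun β α γ h => dif_pos h
  have hdiag : ∀ α, x α α = 1 := by
    intro α
    simp only [x]
    rw [hc]
    simp [Φ]
  have hup : ∀ α β, α < β → x α β = Ψ β (y β) (x α) := by
    intro α β h
    have : x α β = Ψ β (y β) (y β α) := by
      simp only [x]
      rw [hc]
      exact if_pos h
    rw [this]
    exact p0 β _ _ _ fun γ hγ => hy β α γ hγ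
  refine ⟨x, hdiag, ?_, ?_, ?_⟩
  · intro α β h
    simp only [x]
    rw [hc]
    simp [Φ, not_lt.2 h.le, h.ne']
  · intro β α ε hα hε
    obtain ⟨F, hF1, hF2⟩ := p2 β (y β) (ε • x α) ⟨α, hα, by simpa [hdiag] using hε⟩
    refine ⟨F, hF1, fun α' ε' hα' h => ?_⟩
    rw [hup α' β hα', hup α β hα, ← p1, ← p1]
    exact hF2 _ h
  · intro β γ hγ hA v F hF
    obtain ⟨α, a1, a2, a3, a4⟩ := p3 β (y β) (fun α hα => by rw [hy β α α hα, hdiag]; decide) γ hγ
      (fun F hF => by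
        obtain ⟨α, a1, a2, a3⟩ := hA F hF
        exact ⟨α, a1, a2, fun δ hδ => by rw [hy β α δ (hF δ hδ), a3 δ hδ]⟩) v F hF
    refine ⟨α, a1, a2, fun δ hδ => by rw [← hy β α δ (hF δ hδ), a3 δ hδ], ?_⟩
    rw [hup α β (a2.trans_le hγ), ← a4]
    exact p0 β _ _ _ fun γ hγ => (hy β α γ hγ).symm

theorem Mat.acc {A : Om → Om → Prop} {x : Om → Om → R3} (h : Mat A x) {γ : Om}
    (hγ : Acc A x γ γ) (β : Om) : Acc A x β γ := by
  classical
  induction β using WellFoundedLT.induction with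
  | ind β ih =>
    intro F hF
    by_cases h1 : ∀ δ ∈ F, δ < γ
    · exact hγ F h1
    · push Not at h1
      obtain ⟨δ0, hδ0, hγδ⟩ := h1
      have hne : F.Nonempty := ⟨δ0, hδ0⟩
      have h2 : γ ≤ F.max' hne := hγδ.trans (F.le_max' _ hδ0)
      obtain ⟨α, a1, a2, a3, a4⟩ := h.task (F.max' hne) γ h2 (ih _ (hF _ (F.max'_mem hne))) 0
        (F.erase (F.max' hne)) fun δ hδ =>
          lt_of_le_of_ne (F.le_max' _ (Finset.mem_of_mem_erase hδ)) (Finset.ne_of_mem_erase hδ)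
      refine ⟨α, a1, a2, fun δ hδ => ?_⟩
      by_cases h3 : δ = F.max' hne
      · rw [h3, a4]
      · exact a3 δ (Finset.mem_erase.2 ⟨h3, hδ⟩)

theorem exists_guess {A : Om → Om → Prop} (hA : ∀ S : Om → Prop, ∀ C : Om → Prop,
    IsClub C → ∃ a : Om, C a ∧ ∀ b : Om, b < a → (S b ↔ A a b)) (x : Om → Om → R3)
    (S : Om → Prop) (hS : ∀ F : Finset Om, ∃ α, S α ∧ ∀ δ ∈ F, x α δ = 0) :
    ∃ γ, Acc A x γ γ ∧ ∀ b < γ, (S b ↔ A γ b) := by
  choose w hw1 hw2 using hS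
  have h1 : ∀ b : Om, ∃ c, ∀ F : Finset Om, (∀ δ ∈ F, δ ≤ b) → w F < c := by
    intro b
    have h2 : {F : Finset Om | (F : Set Om) ⊆ Iic b}.Countable := by
      have := countable_ofPred_finite_subset (countable_Iic' b)
      refine (this.preimage_of_injOn (f := fun F : Finset Om => (F : Set Om))
        (fun _ _ _ _ h => Finset.coe_injective h)).mono fun F hF => ?_
      exact ⟨F.finite_toSet, hF⟩
    obtain ⟨c, hc⟩ := exists_bound' (h2.image w)
    exact ⟨c, fun F hF => hc _ ⟨F, fun δ hδ => hF δ hδ, rfl⟩⟩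
  choose f hf using h1
  obtain ⟨γ, ⟨⟨b, hb⟩, hγ⟩, hg⟩ := hA S _ (isClub_closure f)
  refine ⟨γ, fun F hF => ?_, hg⟩
  classical
  have hne : (insert b F).Nonempty := Finset.insert_nonempty _ _
  have h3 : (insert b F).max' hne < γ := by
    rw [Finset.max'_lt_iff]
    intro y hy
    rcases Finset.mem_insert.1 hy with rfl | h
    · exact hb
    · exact hF y h
  have h4 : w F < γ := (hf _ F fun δ hδ =>
    Finset.le_max' _ _ (Finset.mem_insert_of_mem hδ)).trans (hγ _ h3)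
  exact ⟨w F, (hg _ h4).1 (hw1 F), h4, hw2 F⟩

end H453Z.Kw
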